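import Mathlib
import Pool.Agent.Lib.helper13.Achieve2

set_option autoImplicit false

namespace Pool.Agent.Results.MP_c19edd_an.Cantor

/-- The term `x_n = 1/2^n + (-1)^n/3^n`. -/
noncomputable def x (n : ℕ) : ℝ := 1 / 2 ^ n + (-1) ^ n / 3 ^ n

/-- The set of all subsums `∑_{n ∈ A} x_n`, `A ⊆ {1,2,…}` (written with `n = i + 1`). -/
def achievementSet : Set ℝ :=
  {t | ∃ A : Set ℕ, t = ∑' i, A.indicator (fun i => x (i + 1)) i}

theorem xd (m : ℕ) : |x (m + 1) - H13Ach.h (m + 1)| ≤ (1 / 3) ^ (m + 1) := by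
  simp [x, H13Ach.h, abs_div]

/-- The achievement set of `1/2^n + (-1)^n/3^n` is homeomorphic to the Cantor set. -/
theorem result : Nonempty (achievementSet ≃ₜ cantorSet) := by
  refine H13Ach.cantor' (x := fun i => x (i + 1)) (q := 1 / 3) (c := 1 / 2) (π := 0)
    (by norm_num) (by norm_num) (by norm_num) (by norm_num) (fun n => ?_) xd (fun m hm => ?_)
  · have h1 := (abs_le.mp (xd n)).1
    have h2 : ((1 : ℝ) / 3) ^ (n + 1) < (1 / 2) ^ (n + 1) :=
      pow_lt_pow_left₀ (by norm_num) (by norm_num) (by omega)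
    unfold H13Ach.h at h1
    linarith
  · have h1 := (abs_le.mp (H13Ach.tail (x := fun i => x (i + 1)) (q := 1 / 3) (by norm_num)
      (by norm_num) xd (m + 1))).2
    have h2 : x (m + 1) = H13Ach.h (m + 1) + (1 / 3) ^ (m + 1) := by
      simp [x, H13Ach.h, (Nat.even_iff.mpr hm).neg_one_pow]
    rw [pow_succ _ (m + 1), show ((1 : ℝ) / 3) ^ (m + 1) * (1 / 3) / (1 - 1 / 3) =
      1 / 2 * (1 / 3) ^ (m + 1) by ring] at h1
    linarith

end Pool.Agent.Results.MP_c19edd_an.Cantor
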